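import Pool.Agent.L7h3.GL.Stm

set_option autoImplicit false

namespace Pool.Agent.L7h37.GL

open Pool.Agent.L7h3.GL

theorem s_FG : S_FG := by
  intro L _ ρ hρ hNN b A
  obtain ⟨N, hN⟩ := hNN
  obtain ⟨A₀, hA₀, hfin, hmax⟩ : ∃ A₀ ⊆ A, A₀.Finite ∧
      ∀ A₁ ⊆ A, A₁.Finite → ρ (b ⊔ sSup A₁) ≤ ρ (b ⊔ sSup A₀) := by
    classical
    let P : ℕ → Prop := fun n => ∃ A₀ ⊆ A, A₀.Finite ∧ ρ (b ⊔ sSup A₀) = n
    have hne : ∃ n, P n := ⟨_, ∅, Set.empty_subset _, Set.finite_empty, rfl⟩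
    have hle : ∀ n, P n → n ≤ N := by
      rintro n ⟨A₀, _, _, rfl⟩
      exact hN _
    obtain ⟨n0, hn0⟩ := hne
    have h := Nat.findGreatest_spec (P := P) (hle n0 hn0) hn0
    obtain ⟨A₀, h1, h2, h3⟩ := h
    refine ⟨A₀, h1, h2, fun A₁ h4 h5 => ?_⟩
    rw [h3]
    exact Nat.le_findGreatest (hN _) ⟨A₁, h4, h5, rfl⟩
  refine ⟨A₀, hA₀, hfin, le_antisymm ?_ ?_⟩
  · refine sup_le le_sup_left (sSup_le fun a ha => ?_)
    by_contra hna
    have h1 : b ⊔ sSup A₀ < b ⊔ sSup (insert a A₀) := by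
      refine lt_of_le_of_ne (sup_le_sup_left (sSup_le_sSup (Set.subset_insert a A₀)) b)
        fun h => hna ?_
      rw [h]
      exact le_sup_of_le_right (le_sSup (Set.mem_insert a A₀))
    have h2 := hρ.mono _ _ h1
    have h3 := hmax (insert a A₀) (Set.insert_subset ha hA₀) (hfin.insert a)
    omega
  · exact sup_le_sup_left (sSup_le_sSup hA₀) b

end Pool.Agent.L7h37.GL
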